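import Pool.Agent.R703.MO.Main

/-!
# A Morse criterion for the vanishing of the `ℓ²`-homology in one degree

Let `L` be the flag complex of the finite graph `G`. If `L` is piecewise linearly embedded in the sphere of dimension
`n - 1` then `cadim (W G) ≤ n` for the right-angled Coxeter group `W G`, and Q1 predicts that the `ℓ²`-homology of
`W G` vanishes in the degrees `i > n / 2`. We prove this for the degree `i` if there is a suitable Morse function.

A system of slopes (`Slope G X`) on the finite set `X` consists of commuting involutions `a v` for the edges of `G`
(an action of `W G` on `X`) and of integers `dir v x`, such that the slope changes sign if the edge from `x` to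
`a v x` is traversed in the opposite direction, and such that opposite edges of squares have equal slopes. This is a
circle-valued cellular Morse function on the cube complex `Davis complex / stabilizer` which is affine on each cube.
It may be constant on some edges and cubes. For a clique `S` of flat directions at `x`, i.e. for a flat cube, we
consider the flag complex on the ascending directions at `x` which are adjacent to all the elements of `S`, the
ascending link of the flat cube. If its reduced real homology vanishes in the degree `i - |S| - 1` for all the flat
cubes, including the vertices (`S = ∅`), then the reduced `ℓ²`-homology of the Davis complex vanishes in the degree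
`i`. Neither the descending links nor the other degrees nor the integral homology play a role.
-/

set_option autoImplicit false

namespace Pool.Agent.Results.MP_ea75ba_gt.AscendingLinks

open Pool.Agent.W907.SG Pool.Agent.W907.SM Pool.Agent.Y132.SI Pool.Agent.R703.MO

/-- Let `D` be a system of slopes of the finite graph `G` on the nonempty finite set `X`, and suppose that for each
point `x` and for each clique `S` of flat directions at `x` with `|S| ≤ i` the flag complex on the ascending
directions at `x` adjacent to all the elements of `S` has no reduced real homology in the degree `i - |S| - 1`.
(1) There are no nonzero `ℓ²` harmonic `i`-chains on the Davis complex of the right-angled Coxeter group of `G`.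
(2) For each `ε > 0` there is a finite set `E` of nontrivial elements of `W G` such that for every subgroup `H` of
finite index which contains no conjugate of an element of `E` the `i`-th real Betti number of `H` (the dimension of
the space of the `H`-invariant real harmonic `i`-chains of the Davis complex) is at most `ε [W G : H]`. -/
theorem result : ∀ (V : Type) [Fintype V] [LinearOrder V] (G : SimpleGraph V) (X : Type) [Finite X] [Nonempty X]
    (D : Slope G X) (i : ℕ),
    (∀ (x : X) (S : Finset V), G.IsClique (S : Set V) → (∀ s ∈ S, D.dir s x = 0) →
      ∀ j, i = j + S.card → HomZero G (D.Asc S x) j) →
    L2Van G i ∧
    ∀ ε : ℝ, 0 < ε → ∃ E : Finset (W G), (1 : W G) ∉ E ∧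
      ∀ H : Subgroup (W G), H.FiniteIndex → (∀ g ∈ E, ∀ x : W G, x * g * x⁻¹ ∉ H) →
        (Module.finrank ℝ (HInv G H i) : ℝ) ≤ ε * H.index := by
  intro V _ _ G X _ _ D i h
  have h1 : L2Van G i := morse_slope G D i h
  refine ⟨h1, fun ε hε => ?_⟩
  obtain ⟨E, hE1, hE2⟩ := growth_set G (fun k => k = i) (fun k hk => by subst hk; exact h1) ε hε
  exact ⟨E, hE1, fun H hfin hH => hE2 H hfin hH i rfl⟩

end Pool.Agent.Results.MP_ea75ba_gt.AscendingLinks
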