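import Pool.Agent.R782.Bal.Main

/-!
# `ℓ²`-homology above half the cocompact action dimension, for balanced nerves in spheres

Let `L` be the flag complex of the finite graph `G`. If `L` is piecewise linearly embedded in the sphere of dimension
`n - 1` then the right-angled Coxeter group `W G` acts properly and cocompactly on a contractible `n`-manifold with
boundary (whose boundary is partitioned into mirrors, thickenings of dual cells of `L`), so that
`cadim (W G) ≤ n`. So Q1 predicts that the `ℓ²`-homology of `W G` vanishes in the degrees `i > n / 2`.

(1) We prove this when `L` is `(d + 1)`-colourable (for example a balanced complex of dimension `d`) and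
`n = 2 d + 1`. The sphere of dimension `2 d` contains all complexes of dimension less than `d`; dimension `d` is the
critical dimension for embeddings in this sphere, and the embedding hypothesis cannot be omitted: the join of
`d + 1` copies of three points has nonzero `ℓ²`-homology in the degree `d + 1`. The hypothesis `Emb d G` is
weaker than a piecewise linear embedding: it suffices that `L` is topologically embedded, or that it is a subcomplex
of a mod `2` homology sphere of dimension at most `2 d`, or that there is an almost embedding of `L` in the sphere.

(2) More generally we prove the vanishing in the degrees `i ≥ b` for the class `SQ b`, which contains these complexes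
for `b = d + 1` and is closed under relative subdivisions, suspensions, joins, gluings, vertex splittings and the
other operations listed in its definition.
-/

set_option autoImplicit false

namespace Pool.Agent.Results.MP_ea75ba_gt.BalancedNerves

open Pool.Agent.W907.SG Pool.Agent.R782.Bal

/-- (1) Let the vertices of the finite graph `G` be properly coloured by `d + 1` colours, and let the flag complex of
`G` be embedded in the sphere of dimension `2 d`. Then there are no nonzero `ℓ²` harmonic `i`-chains on the Davis
complex of the right-angled Coxeter group of `G` for `i > d`. (2) If `G` is in the class `SQ b` then there are no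
nonzero `ℓ²` harmonic `i`-chains for `i ≥ b`. -/
theorem result :
    (∀ (d : ℕ) (V : Type) [Fintype V] [LinearOrder V] (G : SimpleGraph V) (col : V → Fin (d + 1)),
      (∀ u v, G.Adj u v → col u ≠ col v) → Emb d G → ∀ i : ℕ, d < i → L2Van G i) ∧
    (∀ (b : ℕ) (V : Type) [Fintype V] [LinearOrder V] (G : SimpleGraph V), SQ b G → ∀ i : ℕ, b ≤ i → L2Van G i) :=
  ⟨fun _ _ _ _ _ col hc hE i hi => l2_emb hE col hc i hi, fun _ _ _ _ _ h i hi => above_SQ h i hi⟩

end Pool.Agent.Results.MP_ea75ba_gt.BalancedNerves
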