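import Pool.Agent.R779.CT.Main

/-!
# `L²`-homology of groups with coarse translations

`X : FinRes G` (`Pool.Agent.H919R4.ZS.Defs`) is a finite free resolution of the trivial `ℤ[G]`-module
`ℤ` with bases, for instance the cellular chain complex of the universal cover of a finite aspherical
complex `M` with `π₁(M) = G` (for instance, if the torsion-free group `G` acts properly
and cocompactly on a contractible manifold).
`L2Zero X i` (`Pool.Agent.R779.CT.Defs`) says that there is no nonzero square summable harmonic
`i`-chain on the universal cover, that is, that the `i`-th `L²`-Betti number is zero.

`CoarseTranslations φ` (`Pool.Agent.R779.CT.Defs`): the maps `φ k : G → G` are uniformly Lipschitz and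
uniformly finite-to-one (for instance, quasi-isometries of `G` with the same constants), each of them is
at finite distance from the identity (not uniformly in `k`), and `φ_k(1)` tends to infinity. The maps
need not commute with the translations, nor with each other, and need not be invertible.

If `G` has coarse translations then all `L²`-Betti numbers are zero.

Examples (not formalised here): multiplication by the elements of an infinite centre; if `G` is
quasi-isometric to the product of a line and any space `Y` (for instance, if `G` acts properly and
cocompactly on a CAT(0) space with a Euclidean factor; then `G` need not have an infinite amenable
normal subgroup, by work of Leary and Minasyan), the translations of the line.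

Proof. The maps `φ k` extend to chain maps `f_k` of `C_*(M̃)`, which are not equivariant but have only
finitely many local types, uniformly in `k`, so that they have uniformly bounded `ℓ²`-norms, and `f_k` is
chain homotopic to the identity by a homotopy with finitely many local types (depending on `k`), which is
therefore bounded in the `ℓ²`-norm, too. So `⟨h, f_k^* h⟩ = ⟨h, h⟩` for every square summable harmonic
`h`. As `φ_k → ∞` pointwise, `f_k^* h` tends to zero weakly. Hence `h = 0`.
-/

set_option autoImplicit false

namespace Pool.Agent.Results.MP_ea75ba_gt.CoarseTranslations

open Pool.Agent.H919R4.ZS (FinRes)
open Pool.Agent.R779.CT (CoarseTranslations L2Zero)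

theorem result (G : Type) [Group G] (φ : ℕ → G → G) (hφ : CoarseTranslations φ) (X : FinRes G)
    (i : ℕ) : L2Zero X i :=
  Pool.Agent.R779.CT.main hφ X i

end Pool.Agent.Results.MP_ea75ba_gt.CoarseTranslations
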